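import Pool.Agent.H992.SF.Defs

set_option autoImplicit false
open MeasureTheory Filter Topology Complex ProbabilityTheory
open scoped ContDiff ENNReal

namespace Pool.Agent.H404.SF

open Pool.Agent.H992.SF
open Pool.Agent.W745.RW (TF)
open Pool.Agent.N661.BR (MW lin shift IsStationary IsErgodic IsRandomWave)
open Pool.Agent.N661.BH (HP area frames loc mv LocalLaws)
open Pool.Agent.N814.BHASM (Hyp ex)

/-- the first `r` rows are replaced by `0` -/
def cut {D k : ℕ} (r : ℕ) (t : Fin D → Fin k → ℝ) : Fin D → Fin k → ℝ :=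
  fun i => if (i : ℕ) < r then 0 else t i

theorem cut_zero {D k : ℕ} (t : Fin D → Fin k → ℝ) : cut 0 t = t := by
  funext i
  unfold cut
  rw [if_neg (Nat.not_lt_zero _)]

theorem cut_succ {D k : ℕ} (r : ℕ) (hr : r < D) (t : Fin D → Fin k → ℝ) :
    Function.update (cut r t) (⟨r, hr⟩ : Fin D) 0 = cut (r + 1) t := by
  funext i
  unfold cut
  by_cases h : i = ⟨r, hr⟩
  · rw [h, Function.update_self, if_pos (Nat.lt_succ_self r)]
  · rw [Function.update_of_ne h]
    have h1 : (i : ℕ) ≠ r := fun h2 => h (Fin.ext h2)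
    by_cases h3 : (i : ℕ) < r
    · rw [if_pos h3, if_pos (by omega)]
    · rw [if_neg h3, if_neg (by omega)]

theorem filter_succ {D : ℕ} (r : ℕ) (hr : r < D) :
    Finset.univ.filter (fun i : Fin D => (i : ℕ) < r + 1) =
      insert (⟨r, hr⟩ : Fin D) (Finset.univ.filter (fun i : Fin D => (i : ℕ) < r)) := by
  ext i
  rw [Finset.mem_insert, Finset.mem_filter, Finset.mem_filter]
  constructor
  · rintro ⟨_, h⟩
    by_cases h1 : (i : ℕ) = r
    · exact Or.inl (Fin.ext h1)
    · exact Or.inr ⟨Finset.mem_univ _, by omega⟩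
  · rintro (h | h)
    · rw [h]
      exact ⟨Finset.mem_univ _, Nat.lt_succ_self r⟩
    · exact ⟨Finset.mem_univ _, by omega⟩

theorem iter (h : S_PEEL) (D : ℕ) (Ω : Set ℂ) (lam : Fin D → ℕ → ℝ) (u : Fin D → ℕ → ℂ → ℝ)
    (hHyp : ∀ i, Hyp Ω (lam i) (u i)) (hSep : Separated lam) (ψ : ℂ → ℝ) (hψ : TF Ω ψ) (k : ℕ)
    (w : Fin D → Fin k → ℂ) (t : Fin D → Fin k → ℝ) (c : Fin D → ℂ) (r : ℕ) (hr : r ≤ D)
    (hc : ∀ i : Fin D, (i : ℕ) < r → ∃ m : Measure MW, IsProbabilityMeasure m ∧ IsErgodic m ∧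
      LocalLaws Ω (lam i) (u i) m ∧
      c i = ∫ f, Complex.exp (I * (lin (w i) (t i) f : ℝ)) ∂m) :
    Tendsto (fun n => jChar Ω ψ (fun i => lam i n) (fun i => u i n) w t -
      (∏ i ∈ Finset.univ.filter (fun i : Fin D => (i : ℕ) < r), c i) *
        jChar Ω ψ (fun i => lam i n) (fun i => u i n) w (cut r t)) atTop (𝓝 0) := by
  induction r with
  | zero =>
    have h1 : Finset.univ.filter (fun i : Fin D => (i : ℕ) < 0) = ∅ :=
      Finset.filter_eq_empty_iff.2 fun i _ => Nat.not_lt_zero _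
    simp only [h1, cut_zero, Finset.prod_empty, one_mul, sub_self]
    exact tendsto_const_nhds
  | succ r ih =>
    have hrD : r < D := hr
    have ih' := ih hrD.le (fun i hi => hc i (by omega))
    obtain ⟨m, hm1, hm2, hm3, hm4⟩ := hc ⟨r, hrD⟩ (Nat.lt_succ_self r)
    have hp := h D Ω lam u hHyp hSep ⟨r, hrD⟩ m hm1 hm2 hm3 ψ hψ k w (cut r t) (by
      intro i hi
      have hi' : (i : ℕ) < r := hi
      unfold cut
      rw [if_pos hi'])
    have e1 : cut r t ⟨r, hrD⟩ = t ⟨r, hrD⟩ := by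
      unfold cut
      rw [if_neg (lt_irrefl r)]
    rw [e1, ← hm4, cut_succ r hrD t] at hp
    have h2 := hp.const_mul (∏ i ∈ Finset.univ.filter (fun i : Fin D => (i : ℕ) < r), c i)
    have h3 := ih'.add h2
    rw [mul_zero, add_zero] at h3
    refine h3.congr fun n => ?_
    have hnot : (⟨r, hrD⟩ : Fin D) ∉ Finset.univ.filter (fun i : Fin D => (i : ℕ) < r) := by
      rw [Finset.mem_filter]
      rintro ⟨_, h4⟩
      exact lt_irrefl r h4
    rw [filter_succ r hrD, Finset.prod_insert hnot]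
    ring

theorem all (h : S_PEEL) : S_ALL := by
  intro d Ω lam u hHyp hSep m hm1 hm2 hm3 ψ hψ k w t
  obtain ⟨c, hc⟩ : ∃ c : Fin (d + 1) → ℂ, ∀ i : Fin d,
      c i.castSucc = ∫ f, Complex.exp (I * (lin (w i.castSucc) (t i.castSucc) f : ℝ)) ∂(m i) := by
    refine ⟨Fin.snoc (α := fun _ => ℂ)
      (fun i : Fin d => ∫ f, Complex.exp (I * (lin (w i.castSucc) (t i.castSucc) f : ℝ)) ∂(m i)) 0,
      fun i => ?_⟩
    rw [Fin.snoc_castSucc]
  have key := iter h (d + 1) Ω lam u hHyp hSep ψ hψ k w t c d (Nat.le_succ d) (by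
    intro i hi
    have hi' : i = (⟨(i : ℕ), hi⟩ : Fin d).castSucc := Fin.ext rfl
    rw [hi']
    exact ⟨m ⟨(i : ℕ), hi⟩, hm1 _, hm2 _, hm3 _, hc _⟩)
  refine key.congr fun n => ?_
  have e1 : ∏ i ∈ Finset.univ.filter (fun i : Fin (d + 1) => (i : ℕ) < d), c i =
      ∏ i : Fin d, ∫ f, Complex.exp (I * (lin (w i.castSucc) (t i.castSucc) f : ℝ)) ∂(m i) := by
    rw [Finset.prod_filter, Fin.prod_univ_castSucc, if_neg (by simp), mul_one]
    refine Finset.prod_congr rfl fun i _ => ?_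
    rw [if_pos (by simp), hc]
  have e2 : ∀ (z : ℂ) (R : ℂ → ℂ),
      (∑ i : Fin (d + 1), ∑ j, cut d t i j * loc (lam i n) (u i n) z (R (w i j))) =
        ∑ _i : Fin 1, ∑ j, t (Fin.last d) j *
          loc (lam (Fin.last d) n) (u (Fin.last d) n) z (R (w (Fin.last d) j)) := by
    intro z R
    rw [Fin.sum_univ_castSucc, Fin.sum_univ_one]
    have e3 : ∑ i : Fin d, ∑ j, cut d t i.castSucc j *
        loc (lam i.castSucc n) (u i.castSucc n) z (R (w i.castSucc j)) = 0 := by
      refine Finset.sum_eq_zero fun i _ => Finset.sum_eq_zero fun j _ => ?_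
      have e4 : cut d t i.castSucc = 0 := by
        unfold cut
        rw [if_pos (by simp)]
      rw [e4, Pi.zero_apply, zero_mul]
    have e5 : cut d t (Fin.last d) = t (Fin.last d) := by
      unfold cut
      rw [if_neg (by simp)]
    rw [e3, e5, zero_add]
  have e6 : jChar Ω ψ (fun i => lam i n) (fun i => u i n) w (cut d t) =
      jChar Ω ψ (fun _ : Fin 1 => lam (Fin.last d) n) (fun _ => u (Fin.last d) n)
        (fun _ => w (Fin.last d)) (fun _ => t (Fin.last d)) := by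
    unfold jChar
    simp only [e2]
  rw [e1, e6]

theorem frameMean_one : frameMean (fun _ => 1) = 1 := by
  unfold frameMean
  rw [intervalIntegral.integral_const, sub_zero]
  have hpi : Real.pi ≠ 0 := Real.pi_ne_zero
  have hpiC : (Real.pi : ℂ) ≠ 0 := by exact_mod_cast hpi
  rw [Complex.real_smul]
  push_cast
  field_simp
  norm_num

theorem prod (h : S_PEEL) : S_PROD := by
  intro d Ω lam u hHyp hSep m hm1 hm2 hm3 ψ hψ k w t
  have key := iter h (d + 1) Ω lam u hHyp hSep ψ hψ k w t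
    (fun i => ∫ f, Complex.exp (I * (lin (w i) (t i) f : ℝ)) ∂(m i)) (d + 1) le_rfl
    (fun i _ => ⟨m i, hm1 i, hm2 i, hm3 i, rfl⟩)
  have e1 : Finset.univ.filter (fun i : Fin (d + 1) => (i : ℕ) < d + 1) = Finset.univ :=
    Finset.filter_true_of_mem fun i _ => i.isLt
  have e2 : ∀ n, jChar Ω ψ (fun i => lam i n) (fun i => u i n) w (cut (d + 1) t) =
      area Ω fun z => (ψ z : ℂ) := by
    intro n
    have e3 : cut (d + 1) t = 0 := by
      funext i
      unfold cut
      rw [if_pos i.isLt]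
      rfl
    unfold jChar
    rw [e3]
    simp only [Pi.zero_apply, zero_mul, Finset.sum_const_zero, Complex.ofReal_zero, mul_zero,
      Complex.exp_zero, frameMean_one, mul_one]
  simp only [e1, e2] at key
  have k2 := key.add_const ((∏ i, ∫ f, Complex.exp (I * (lin (w i) (t i) f : ℝ)) ∂(m i)) *
    area Ω fun z => (ψ z : ℂ))
  rw [zero_add] at k2
  refine k2.congr fun n => ?_
  rw [sub_add_cancel]

end Pool.Agent.H404.SF
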